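import Pool.Agent.MP_bfbf95_lc.Defs
import Pool.Agent.Lib.Cx.All

-- part MP_bfbf95_lc.Basic
section

/-!
Basic facts on the degree sequence and the two parameters.
-/

namespace Pool.Agent.MP_bfbf95_lc

open Pool.Agent.Lib.Cx

theorem sum_le_take : ∀ (l : List ℕ), l.Pairwise (fun a b => b ≤ a) → ∀ s : List ℕ, s.Sublist l →
    s.sum ≤ (l.take s.length).sum
  | [], _, s, hs => by
    have : s = [] := List.eq_nil_of_sublist_nil hs
    simp [this]
  | a :: l, hl, s, hs => by
    rw [List.pairwise_cons] at hl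
    cases s with
    | nil => simp
    | cons b s =>
      have hb : b ≤ a := by
        have : b ∈ a :: l := hs.subset (by simp)
        rcases List.mem_cons.1 this with h | h
        · exact h.le
        · exact hl.1 b h
      have hs' : s.Sublist l := by
        simpa using hs.tail
      have := sum_le_take l hl.2 s hs'
      simp only [List.sum_cons, List.length_cons, List.take_succ_cons]
      omega

theorem take_sum_mono (l : List ℕ) {j k : ℕ} (h : j ≤ k) : (l.take j).sum ≤ (l.take k).sum :=
  (List.take_sublist_take_left h).sum_le_sum (by simp)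

variable {n : ℕ} (G : SimpleGraph (Fin n))

theorem degSeq_perm : (degSeq G).Perm (List.ofFn fun v => (G.neighborSet v).ncard) :=
  List.perm_insertionSort _ _

theorem degSeq_sorted : (degSeq G).Pairwise (fun a b => b ≤ a) := by
  have : Std.Total (fun a b : ℕ => b ≤ a) := ⟨fun a b => le_total b a⟩
  have : IsTrans ℕ (fun a b : ℕ => b ≤ a) := ⟨fun a b c h1 h2 => le_trans h2 h1⟩
  exact List.pairwise_insertionSort _ _

theorem sum_deg_le (T : Finset (Fin n)) :
    ∑ v ∈ T, (G.neighborSet v).ncard ≤ ((degSeq G).take T.card).sum := by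
  have h1 : (T.toList.map fun v => (G.neighborSet v).ncard).Subperm (degSeq G) := by
    refine List.Subperm.trans ?_ (degSeq_perm G).symm.subperm
    rw [List.ofFn_eq_map]
    obtain ⟨l, h1, h2⟩ : T.toList.Subperm (List.finRange n) :=
      List.subperm_of_subset T.nodup_toList (fun v _ => List.mem_finRange v)
    exact ⟨l.map _, h1.map _, h2.map _⟩
  obtain ⟨s, h2, h3⟩ := h1
  have h4 := sum_le_take _ (degSeq_sorted G) s h3
  rw [h2.sum_eq, h2.length_eq] at h4
  simpa [Finset.sum_map_toList] using h4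

theorem le_sum_of_dom (S : Finset (Fin n)) (hS : ∀ v, ∃ w ∈ S, G.Adj v w) :
    n ≤ ∑ v ∈ S, (G.neighborSet v).ncard := by
  classical
  have h1 : (Finset.univ : Finset (Fin n)) ⊆ S.biUnion fun w => (G.neighborSet w).toFinset := by
    intro v _
    obtain ⟨w, hw, h⟩ := hS v
    exact Finset.mem_biUnion.2 ⟨w, hw, by simpa using h.symm⟩
  have h2 := (Finset.card_le_card h1).trans Finset.card_biUnion_le
  simpa [Set.ncard_eq_toFinset_card'] using h2

theorem subT_le_of_sum (T : Finset (Fin n)) (h : n ≤ ∑ v ∈ T, (G.neighborSet v).ncard) :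
    subT G ≤ T.card :=
  Nat.sInf_le (h.trans (sum_deg_le G T))

theorem gammaT_spec (h : ∀ v, ∃ w, G.Adj v w) :
    ∃ S : Finset (Fin n), S.card = gammaT G ∧ ∀ v, ∃ w ∈ S, G.Adj v w :=
  Nat.sInf_mem (s := {k | ∃ S : Finset (Fin n), S.card = k ∧ ∀ v, ∃ w ∈ S, G.Adj v w})
    ⟨_, Finset.univ, rfl, fun v => by simpa using h v⟩

theorem gammaT_le (S : Finset (Fin n)) (hS : ∀ v, ∃ w ∈ S, G.Adj v w) : gammaT G ≤ S.card :=
  Nat.sInf_le ⟨S, rfl, hS⟩

theorem subT_le_gammaT (h : ∀ v, ∃ w, G.Adj v w) : subT G ≤ gammaT G := by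
  obtain ⟨S, h1, h2⟩ := gammaT_spec G h
  rw [← h1]
  exact subT_le_of_sum G S (le_sum_of_dom G S h2)

theorem subT_spec (h : ∀ v, ∃ w, G.Adj v w) : n ≤ ((degSeq G).take (subT G)).sum := by
  obtain ⟨S, -, h2⟩ := gammaT_spec G h
  exact Nat.sInf_mem (s := {k | n ≤ ((degSeq G).take k).sum})
    ⟨S.card, (le_sum_of_dom G S h2).trans (sum_deg_le G S)⟩

theorem lt_of_lt_subT {k : ℕ} (hk : k < subT G) : ((degSeq G).take k).sum < n := by
  by_contra h
  exact absurd (Nat.sInf_le (s := {k | n ≤ ((degSeq G).take k).sum}) (not_lt.1 h)) (not_le.2 hk)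

theorem lt_subT (h : ∀ v, ∃ w, G.Adj v w) {k D : ℕ} (hD : ∀ v, (G.neighborSet v).ncard ≤ D)
    (hk : k * D < n) : k < subT G := by
  by_contra hc
  have h1 := (subT_spec G h).trans (take_sum_mono _ (not_lt.1 hc))
  have h2 : ((degSeq G).take k).sum ≤ ((degSeq G).take k).length • D := by
    refine List.sum_le_card_nsmul _ _ fun x hx => ?_
    have := (degSeq_perm G).subset (List.mem_of_mem_take hx)
    obtain ⟨v, rfl⟩ := (List.mem_ofFn' _ _).1 this
    exact hD v
  have h3 : ((degSeq G).take k).length ≤ k := by simp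
  have h4 : ((degSeq G).take k).length * D ≤ k * D := Nat.mul_le_mul_right _ h3
  simp only [smul_eq_mul] at h2
  omega

/-- The property of an adjacency matrix. -/
def Good (M : List (List Bool)) : Prop :=
  ∃ (n : ℕ) (G : SimpleGraph (Fin n)), adjRows G = M ∧ (∀ v, ∃ w, G.Adj v w) ∧ gammaT G = subT G

theorem tdsEq_eq : tdsEq = langOf Good := by
  funext x
  rw [Bool.eq_iff_iff]
  simp only [tdsEq, langOf, Good, decide_eq_true_eq]
  constructor
  · rintro ⟨n, G, h1, h2⟩
    exact ⟨_, h1, n, G, rfl, h2⟩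
  · rintro ⟨_, h1, n, G, rfl, h2⟩
    exact ⟨n, G, h1, h2⟩

/-- Entry of a matrix. -/
def ent (M : List (List Bool)) (i j : ℕ) : Bool := (M.getD i []).getD j false

theorem length_adjRows : (adjRows G).length = n := by simp [adjRows]

theorem row_adjRows : ∀ r ∈ adjRows G, r.length = n := by
  intro r hr
  obtain ⟨v, rfl⟩ := (List.mem_ofFn' _ _).1 hr
  simp

theorem ent_adjRows (v w : Fin n) : ent (adjRows G) v w = true ↔ G.Adj v w := by
  simp [ent, adjRows]

theorem adjRows_eq (M : List (List Bool)) (h1 : M.length = n) (h2 : ∀ r ∈ M, r.length = n)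
    (h3 : ∀ v w : Fin n, ent M v w = true ↔ G.Adj v w) : adjRows G = M := by
  refine List.ext_getElem (by rw [length_adjRows, h1]) fun i hi hi' => ?_
  have hl := h2 _ (List.getElem_mem hi')
  refine List.ext_getElem (by rw [row_adjRows G _ (List.getElem_mem hi), hl]) fun j hj hj' => ?_
  have := h3 ⟨i, h1 ▸ hi'⟩ ⟨j, hl ▸ hj'⟩
  rw [Bool.eq_iff_iff]
  simp only [adjRows, List.getElem_ofFn, decide_eq_true_eq]
  rw [← this]
  simp [ent, hi', hj']

theorem degs_adjRows : (adjRows G).map (fun r => r.count true) =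
    List.ofFn fun v => (G.neighborSet v).ncard := by
  classical
  simp only [adjRows, List.map_ofFn]
  congr 1
  funext v
  simp only [Function.comp, List.ofFn_eq_map, List.count, List.countP_map]
  rw [List.countP_eq_length_filter, Set.ncard_eq_toFinset_card',
    ← List.toFinset_card_of_nodup ((List.nodup_finRange n).filter _)]
  congr 1
  ext w
  simp

end Pool.Agent.MP_bfbf95_lc

end

-- part MP_bfbf95_lc.Mem
section

/-!
TDS-EQ is in NP.
-/

namespace Pool.Agent.MP_bfbf95_lc

open Pool.Agent.Lib.Cx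

@[fun_prop] theorem ent_pt {α : Type} [Enc α] {M : α → List (List Bool)} {i j : α → ℕ}
    (hM : PT M) (hi : PT i) (hj : PT j) : PT (fun x => ent (M x) (i x) (j x)) := by
  unfold ent; fun_prop

/-- The verifier. -/
def Ver (z : List (List Bool) × (List ℕ × List ℕ)) : Prop :=
  (∀ r ∈ z.1, r.length = z.1.length) ∧
  (∀ i < z.1.length, ∀ j < z.1.length, ent z.1 i j = ent z.1 j i) ∧
  (∀ i < z.1.length, ent z.1 i i = false) ∧
  (∀ i < z.1.length, ∃ j ∈ z.2.1, j < z.1.length ∧ ent z.1 i j = true) ∧
  z.2.2.Pairwise (fun a b => b ≤ a) ∧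
  (∀ x ∈ z.2.2 ++ z.1.map (fun r => r.count true),
    z.2.2.count x = (z.1.map (fun r => r.count true)).count x) ∧
  (∀ k < z.2.1.length, (z.2.2.take k).sum < z.1.length)

theorem ver_pp : PP Ver := by
  unfold Ver; fun_prop

theorem ver_sound (M : List (List Bool)) (b : List ℕ × List ℕ) (h : Ver (M, b)) : Good M := by
  classical
  obtain ⟨S, ds⟩ := b
  obtain ⟨h1, h2, h3, h4, h5, h6, h7⟩ := h
  simp only at h1 h2 h3 h4 h5 h6 h7
  let G : SimpleGraph (Fin M.length) :=
    { Adj := fun v w => ent M v w = true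
      symm := ⟨fun v w h => by rw [← h2 v v.2 w w.2]; exact h⟩
      loopless := ⟨fun v h => by rw [h3 v v.2] at h; exact absurd h (by simp)⟩ }
  have hG : adjRows G = M := adjRows_eq G M rfl h1 fun _ _ => Iff.rfl
  let T : Finset (Fin M.length) := Finset.univ.filter fun v => (v : ℕ) ∈ S
  have hT : ∀ v, ∃ w ∈ T, G.Adj v w := by
    intro v
    obtain ⟨j, hj, hj', e⟩ := h4 v v.2
    exact ⟨⟨j, hj'⟩, by simpa [T] using hj, e⟩
  have hno : ∀ v, ∃ w, G.Adj v w := fun v => (hT v).imp fun _ h => h.2
  have hTc : T.card ≤ S.length := by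
    refine le_trans ?_ (List.toFinset_card_le S)
    refine Finset.card_le_card_of_injOn (fun v => (v : ℕ)) (fun v hv => ?_)
      (fun v _ w _ h => Fin.ext h)
    simpa [T] using hv
  have hp : ds.Perm (degSeq G) := by
    refine List.Perm.trans ?_ (degSeq_perm G).symm
    rw [← degs_adjRows, hG, List.perm_iff_count]
    intro x
    by_cases hx : x ∈ ds ++ M.map (fun r => r.count true)
    · exact h6 x hx
    · rw [List.mem_append, not_or] at hx
      rw [List.count_eq_zero_of_not_mem hx.1, List.count_eq_zero_of_not_mem hx.2]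
  have he : ds = degSeq G :=
    List.Perm.eq_of_pairwise (fun a b _ _ h1 h2 => le_antisymm h2 h1) h5 (degSeq_sorted G) hp
  refine ⟨_, G, hG, hno, le_antisymm ?_ (subT_le_gammaT G hno)⟩
  refine (gammaT_le G T hT).trans (hTc.trans ?_)
  by_contra hc
  have := h7 _ (not_le.1 hc)
  rw [he] at this
  exact absurd (subT_spec G hno) (not_le.2 this)

theorem ver_complete (M : List (List Bool)) (h : Good M) :
    ∃ b, size b ≤ 3 * (M.length * (2 * M.length + 1)) + 1 ∧ Ver (M, b) := by
  classical
  obtain ⟨n, G, rfl, hno, he⟩ := h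
  obtain ⟨S, hS, hS'⟩ := gammaT_spec G hno
  have hn := length_adjRows G
  refine ⟨(S.toList.map Fin.val, degSeq G), ?_, ?_⟩
  · have a1 := size_list_le (S.toList.map Fin.val) n (by
      intro a ha
      obtain ⟨v, -, rfl⟩ := List.mem_map.1 ha
      exact (size_nat_le_self _).trans v.2.le)
    have a2 := size_list_le (degSeq G) n (by
      intro a ha
      obtain ⟨v, rfl⟩ := (List.mem_ofFn' _ _).1 ((degSeq_perm G).subset ha)
      refine (size_nat_le_self _).trans ?_
      simpa using Set.ncard_le_ncard (Set.subset_univ (G.neighborSet v)))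
    have a3 : (S.toList.map Fin.val).length ≤ n := by
      simpa using S.card_le_univ
    have a4 : (degSeq G).length = n := by simpa using (degSeq_perm G).length_eq
    have a5 := Nat.mul_le_mul_right (2 * n + 1) a3
    rw [a4] at a2
    rw [size_prod, hn]
    simp only
    omega
  · refine ⟨?_, ?_, ?_, ?_, degSeq_sorted G, ?_, ?_⟩
    · simpa [hn] using row_adjRows G
    · simp only [hn]
      intro i hi j hj
      rw [Bool.eq_iff_iff]
      exact (ent_adjRows G ⟨i, hi⟩ ⟨j, hj⟩).trans ((G.adj_comm _ _).trans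
        (ent_adjRows G ⟨j, hj⟩ ⟨i, hi⟩).symm)
    · simp only [hn]
      intro i hi
      have := ent_adjRows G ⟨i, hi⟩ ⟨i, hi⟩
      simpa using this
    · simp only [hn]
      intro i hi
      obtain ⟨w, hw, h⟩ := hS' ⟨i, hi⟩
      exact ⟨w, List.mem_map.2 ⟨w, by simpa using hw, rfl⟩, w.2, (ent_adjRows G ⟨i, hi⟩ w).2 h⟩
    · intro x _
      simp only [degs_adjRows]
      exact (degSeq_perm G).count_eq x
    · simp only [hn]
      intro k hk
      refine lt_of_lt_subT G ?_
      rw [← he, ← hS]
      simpa using hk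

theorem good_mem_NP : langOf Good ∈ N68a2faeb.NP :=
  langOf_mem_NP Ver ver_pp (fun M => 3 * (M.length * (2 * M.length + 1)) + 1) (by fun_prop)
    ver_sound ver_complete

end Pool.Agent.MP_bfbf95_lc

end

-- part MP_bfbf95_lc.Red
section

/-!
The reduction from 3-SAT.
-/

namespace Pool.Agent.MP_bfbf95_lc

open Pool.Agent.Lib.Cx

theorem key {X : Type} (vs : List X) (adj : X → X → Bool) (hsym : ∀ a b, adj a b = adj b a)
    (hirr : ∀ a, adj a a = false) (k D : ℕ) (hno : ∀ x ∈ vs, ∃ y ∈ vs, adj x y = true)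
    (hD : ∀ x ∈ vs, vs.countP (adj x) ≤ D) (hk : k * D < vs.length)
    (T : Finset X) (hT : ∀ x ∈ T, x ∈ vs) (hTc : T.card ≤ k + 1)
    (hs : vs.length ≤ ∑ x ∈ T, vs.countP (adj x)) :
    Good (vs.map fun a => vs.map (adj a)) ↔
      ∃ S : Finset X, S.card ≤ k + 1 ∧ ∀ x ∈ vs, ∃ y ∈ S, y ∈ vs ∧ adj x y = true := by
  classical
  let G : SimpleGraph (Fin vs.length) :=
    { Adj := fun v w => adj vs[v] vs[w] = true
      symm := ⟨fun v w h => by rw [hsym]; exact h⟩
      loopless := ⟨fun v h => by rw [hirr] at h; exact absurd h (by simp)⟩ }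
  have hent : ∀ v w : Fin vs.length, ent (vs.map fun a => vs.map (adj a)) v w = true ↔ G.Adj v w := by
    intro v w
    simp [ent, G]
  have hG : adjRows G = vs.map fun a => vs.map (adj a) :=
    adjRows_eq G _ (by simp) (by simp) hent
  have hdeg : ∀ v, (G.neighborSet v).ncard = vs.countP (adj vs[v]) := by
    intro v
    have h1 := degs_adjRows G
    rw [hG] at h1
    have h2 := congrArg (fun l => l[(v : ℕ)]?) h1
    simp [List.count, List.countP_map] at h2
    rw [← h2]
    congr 1
  have hidx : ∀ x ∈ vs, ∃ i : Fin vs.length, vs[i] = x := by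
    intro x hx
    obtain ⟨i, hi, e⟩ := List.getElem_of_mem hx
    exact ⟨⟨i, hi⟩, e⟩
  have : Nonempty (Fin vs.length) := ⟨⟨0, by omega⟩⟩
  choose! idx hidx using hidx
  have hno' : ∀ v, ∃ w, G.Adj v w := by
    intro v
    obtain ⟨y, hy, h⟩ := hno vs[v] (List.getElem_mem _)
    exact ⟨idx y, by simpa only [G, hidx y hy] using h⟩
  have h1 : k < subT G := lt_subT G hno' (fun v => (hdeg v).trans_le (hD _ (List.getElem_mem _))) hk
  have h2 : subT G ≤ k + 1 := by
    refine (subT_le_of_sum G (T.image idx) ?_).trans (Finset.card_image_le.trans hTc)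
    rw [Finset.sum_image (fun x hx y hy h => by rw [← hidx x (hT x hx), ← hidx y (hT y hy), h])]
    refine hs.trans (le_of_eq (Finset.sum_congr rfl fun x hx => ?_))
    rw [hdeg, hidx x (hT x hx)]
  have h3 := subT_le_gammaT G hno'
  have h4 : Good (vs.map fun a => vs.map (adj a)) ↔ gammaT G = subT G := by
    refine ⟨?_, fun h => ⟨_, G, hG, hno', h⟩⟩
    rintro ⟨n, G', e, -, h⟩
    obtain rfl : n = vs.length := by rw [← length_adjRows G', e]; simp
    obtain rfl : G' = G := by
      ext v w
      rw [← ent_adjRows, e, hent]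
    exact h
  rw [h4]
  constructor
  · intro h
    obtain ⟨S, hS, hS'⟩ := gammaT_spec G hno'
    refine ⟨S.image fun v => vs[v], Finset.card_image_le.trans (by omega), fun x hx => ?_⟩
    obtain ⟨w, hw, e⟩ := hS' (idx x)
    refine ⟨vs[w], Finset.mem_image_of_mem _ hw, List.getElem_mem _, ?_⟩
    simpa only [G, hidx x hx] using e
  · rintro ⟨S, hS, hS'⟩
    have := gammaT_le G (S.image idx) (by
      intro v
      obtain ⟨y, hy, hy', e⟩ := hS' vs[v] (List.getElem_mem _)
      exact ⟨idx y, Finset.mem_image_of_mem _ hy, by simpa only [G, hidx y hy'] using e⟩)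
    have h5 := Finset.card_image_le (s := S) (f := idx)
    omega

/-- Vertices: tag and two indices. -/
abbrev Vx : Type := ℕ × ℕ × ℕ

/-- The literal vertices. -/
def lits (N : ℕ) : List Vx := (List.range N).flatMap fun i => [(1, i, 0), (1, i, 1)]

/-- The private vertices. -/
def privs (N L : ℕ) : List Vx :=
  (List.range (N + 1)).flatMap fun i => (List.range L).map fun j => (2, i, j)

/-- The clause vertices. -/
def cls (m : ℕ) : List Vx := (List.range m).map fun j => (3, j, 0)

/-- All vertices. -/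
def verts (N L m : ℕ) : List Vx := (0, 0, 0) :: (lits N ++ (privs N L ++ cls m))

/-- The literal occurs in clause number `j`. -/
def occ (φ : List (Clause3 ℕ)) (j : ℕ) (l : ℕ × Bool) : Prop :=
  ∃ c ∈ φ[j]?.toList, c.1 = l ∨ c.2.1 = l ∨ c.2.2 = l

/-- Directed edges. -/
def arc (φ : List (Clause3 ℕ)) (N : ℕ) (a b : Vx) : Prop :=
  (a.1 = 0 ∧ b.1 = 1) ∨ (a.1 = 0 ∧ b.1 = 2 ∧ b.2.1 = N) ∨ (a.1 = 1 ∧ b.1 = 2 ∧ a.2.1 = b.2.1) ∨
    (a.1 = 1 ∧ b.1 = 3 ∧ occ φ b.2.1 (a.2.1, decide (a.2.2 = 1)))

open Classical in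
/-- Adjacency. -/
noncomputable def adjB (φ : List (Clause3 ℕ)) (N : ℕ) (a b : Vx) : Bool :=
  decide (arc φ N a b ∨ arc φ N b a)

/-- The adjacency matrix of the constructed graph. -/
noncomputable def red (φ : List (Clause3 ℕ)) : List (List Bool) :=
  (verts (3 * φ.length + 1) ((3 * φ.length + 1) * (2 * (3 * φ.length + 1))) φ.length).map fun a =>
    (verts (3 * φ.length + 1) ((3 * φ.length + 1) * (2 * (3 * φ.length + 1))) φ.length).map
      (adjB φ (3 * φ.length + 1) a)

theorem red_pt : PT red := by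
  have h1 : PT (fun φ : List (Clause3 ℕ) =>
      verts (3 * φ.length + 1) ((3 * φ.length + 1) * (2 * (3 * φ.length + 1))) φ.length) := by
    unfold verts lits privs cls
    fun_prop
  have h2 : PT (fun z : (List (Clause3 ℕ) × Vx) × Vx =>
      adjB z.1.1 (3 * z.1.1.length + 1) z.1.2 z.2) := by
    unfold adjB arc occ
    fun_prop
  unfold red
  exact PT.map (f := fun φ a => (verts (3 * φ.length + 1) ((3 * φ.length + 1) *
    (2 * (3 * φ.length + 1))) φ.length).map (adjB φ (3 * φ.length + 1) a))
    (PT.map (f := fun (p : List (Clause3 ℕ) × Vx) b => adjB p.1 (3 * p.1.length + 1) p.2 b) h2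
      (h1.comp' (by fun_prop))) h1

theorem mem_verts {N L m : ℕ} {x : Vx} : x ∈ verts N L m ↔ x = (0, 0, 0) ∨
    (x.1 = 1 ∧ x.2.1 < N ∧ x.2.2 ≤ 1) ∨ (x.1 = 2 ∧ x.2.1 ≤ N ∧ x.2.2 < L) ∨
      (x.1 = 3 ∧ x.2.1 < m ∧ x.2.2 = 0) := by
  obtain ⟨a, b, c⟩ := x
  simp only [verts, lits, privs, cls, List.mem_cons, List.mem_append, List.mem_flatMap,
    List.mem_range, List.mem_map, Prod.mk.injEq, List.not_mem_nil, or_false]
  refine or_congr Iff.rfl (or_congr ?_ (or_congr ?_ ?_))
  · constructor
    · rintro ⟨i, hi, h | h⟩ <;> omega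
    · intro h
      exact ⟨b, by omega, by omega⟩
  · constructor
    · rintro ⟨i, hi, j, hj, h⟩
      omega
    · intro h
      exact ⟨b, by omega, c, by omega, by omega⟩
  · constructor
    · rintro ⟨i, hi, h⟩
      omega
    · intro h
      exact ⟨b, by omega, by omega⟩

theorem length_lits (N : ℕ) : (lits N).length = 2 * N := by
  simp [lits, List.length_flatMap, mul_comm]

theorem length_privs (N L : ℕ) : (privs N L).length = (N + 1) * L := by
  simp [privs, List.length_flatMap]

theorem length_cls (m : ℕ) : (cls m).length = m := by simp [cls]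

theorem countP_privs (N L i : ℕ) (hi : i ≤ N) (p : Vx → Bool)
    (hp : ∀ a b, p (2, a, b) = true ↔ a = i) : (privs N L).countP p = L := by
  have h1 : ∀ a, ((List.range L).map fun j => ((2, a, j) : Vx)).countP p =
      if a = i then L else 0 := by
    intro a
    split_ifs with h
    · rw [List.countP_eq_length.2 (by simpa using fun j _ => (hp a j).2 h)]
      simp
    · rw [List.countP_eq_zero]
      simpa using fun j _ => by simpa using mt (hp a j).1 h
  simp only [privs, List.countP_flatMap, Function.comp_def, h1]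
  rw [← List.sum_toFinset _ List.nodup_range, Finset.sum_ite_eq' ]
  simp [Nat.lt_succ_of_le hi]

theorem adjB_iff (φ : List (Clause3 ℕ)) (N : ℕ) (a b : Vx) :
    adjB φ N a b = true ↔ arc φ N a b ∨ arc φ N b a := by
  simp only [adjB, decide_eq_true_eq]

theorem countP_verts (N L m : ℕ) (p : Vx → Bool) : (verts N L m).countP p =
    (if p (0, 0, 0) = true then 1 else 0) + (lits N).countP p + (privs N L).countP p +
      (cls m).countP p := by
  simp only [verts, List.countP_cons, List.countP_append]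
  omega

theorem mem_lits {N : ℕ} {x : Vx} (h : x ∈ lits N) : x.1 = 1 := by
  simp only [lits, List.mem_flatMap, List.mem_cons, List.not_mem_nil, or_false] at h
  obtain ⟨i, -, rfl | rfl⟩ := h <;> rfl

theorem mem_privs {N L : ℕ} {x : Vx} (h : x ∈ privs N L) : x.1 = 2 := by
  simp only [privs, List.mem_flatMap, List.mem_map] at h
  obtain ⟨i, -, j, -, rfl⟩ := h
  rfl

theorem mem_cls {m : ℕ} {x : Vx} (h : x ∈ cls m) : x.1 = 3 := by
  simp only [cls, List.mem_map] at h
  obtain ⟨i, -, rfl⟩ := h
  rfl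

theorem deg_u (φ : List (Clause3 ℕ)) (N L m : ℕ) :
    (verts N L m).countP (adjB φ N (0, 0, 0)) = 2 * N + L := by
  rw [countP_verts, countP_privs N L N le_rfl _ (by simp [adjB_iff, arc]),
    List.countP_eq_length.2 (fun x hx => by simp [adjB_iff, arc, mem_lits hx]), length_lits,
    List.countP_eq_zero.2 (fun x hx => by simp [adjB_iff, arc, mem_cls hx])]
  simp [adjB_iff, arc]

theorem deg_lit (φ : List (Clause3 ℕ)) (N L m i b : ℕ) (hi : i < N) :
    1 + L ≤ (verts N L m).countP (adjB φ N (1, i, b)) ∧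
      (verts N L m).countP (adjB φ N (1, i, b)) ≤ 1 + L + m := by
  rw [countP_verts, countP_privs N L i hi.le _ (by
      intro a c
      have : arc φ N (1, i, b) (2, a, c) ↔ i = a := by simp [arc]
      rw [adjB_iff, this]
      simp only [arc]
      omega),
    List.countP_eq_zero.2 (fun x hx => by simp [adjB_iff, arc, mem_lits hx])]
  have h1 := List.countP_le_length (p := adjB φ N (1, i, b)) (l := cls m)
  rw [length_cls] at h1
  have h2 : adjB φ N (1, i, b) (0, 0, 0) = true := by simp [adjB_iff, arc]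
  rw [if_pos h2]
  omega

theorem deg_low (φ : List (Clause3 ℕ)) (N L m : ℕ) (x : Vx) (hx : 2 ≤ x.1) :
    (verts N L m).countP (adjB φ N x) ≤ 1 + 2 * N := by
  have h1 : (privs N L).countP (adjB φ N x) = 0 :=
    List.countP_eq_zero.2 fun y hy => by
      have := mem_privs hy
      simp only [adjB_iff, arc]
      omega
  have h2 : (cls m).countP (adjB φ N x) = 0 :=
    List.countP_eq_zero.2 fun y hy => by
      have := mem_cls hy
      simp only [adjB_iff, arc]
      omega
  have h3 := List.countP_le_length (p := adjB φ N x) (l := lits N)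
  rw [length_lits] at h3
  rw [countP_verts, h1, h2]
  split_ifs <;> omega

theorem occ_iff (φ : List (Clause3 ℕ)) (j : ℕ) (hj : j < φ.length) (l : ℕ × Bool) :
    occ φ j l ↔ φ[j].1 = l ∨ φ[j].2.1 = l ∨ φ[j].2.2 = l := by
  simp [occ, hj]

/-- The chosen vertices. -/
def pick (N : ℕ) (a : ℕ → Bool) (i : ℕ) : Vx := if i < N then (1, i, (a i).toNat) else (0, 0, 0)

theorem red_spec (φ : List (Clause3 ℕ)) (hφ : ∀ v ∈ vars3 φ, v < 3 * φ.length) :
    Sat3 φ ↔ Good (red φ) := by
  classical
  unfold red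
  generalize hN : 3 * φ.length + 1 = N
  generalize hL : N * (2 * N) = L
  have hN1 : 1 ≤ N := by omega
  have hL1 : 1 ≤ L := by nlinarith
  have hlen : (verts N L φ.length).length = 1 + 2 * N + (N + 1) * L + φ.length := by
    simp only [verts, List.length_cons, List.length_append, length_lits, length_privs, length_cls]
    omega
  have hvar : ∀ c ∈ φ, c.1.1 < N ∧ c.2.1.1 < N ∧ c.2.2.1 < N := by
    intro c hc
    have h := fun v hv => hφ v (List.mem_flatMap.2 ⟨c, hc, hv⟩)
    have h1 := h c.1.1 (by simp)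
    have h2 := h c.2.1.1 (by simp)
    have h3 := h c.2.2.1 (by simp)
    omega
  have hlit : ∀ (i : ℕ) (b : Bool), i < N → ((1, i, b.toNat) : Vx) ∈ verts N L φ.length := by
    intro i b hi
    rw [mem_verts]
    cases b <;> simp [hi]
  have hu : ((0, 0, 0) : Vx) ∈ verts N L φ.length := by simp [mem_verts]
  obtain ⟨g, hgdef⟩ : ∃ g : (ℕ → Bool) → ℕ → Vx, g = pick N := ⟨_, rfl⟩
  obtain ⟨z, -⟩ : ∃ z : ℕ → Bool, True := ⟨fun _ => false, trivial⟩
  have hg : ∀ a i, g a i ∈ verts N L φ.length := by
    intro a i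
    simp only [hgdef, pick]
    split_ifs with h
    · exact hlit _ _ h
    · exact hu
  have hgN : ∀ a, g a N = (0, 0, 0) := by simp [hgdef, pick]
  have hgi : ∀ a i, i < N → g a i = (1, i, (a i).toNat) := by
    intro a i hi
    simp [hgdef, pick, hi]
  have hcard : ∀ a, ((Finset.range (N + 1)).image (g a)).card ≤ N + 1 := fun a =>
    Finset.card_image_le.trans (by simp)
  have hdom : ∀ a, ∀ x ∈ verts N L φ.length, x.1 ≠ 3 →
      ∃ i ≤ N, adjB φ N x (g a i) = true := by
    intro a x hx h3
    obtain ⟨t, i, j⟩ := x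
    rw [mem_verts] at hx
    rcases hx with h | h | h | h
    · exact ⟨0, by omega, by rw [hgi a 0 (by omega), h]; simp [adjB_iff, arc]⟩
    · obtain rfl : t = 1 := h.1
      exact ⟨N, le_rfl, by rw [hgN]; simp [adjB_iff, arc]⟩
    · refine ⟨i, h.2.1, ?_⟩
      obtain rfl : t = 2 := h.1
      by_cases hi : i < N
      · rw [hgi a i hi]
        simp [adjB_iff, arc]
      · have : i = N := by have := h.2.1; simp only at this; omega
        subst this
        rw [hgN]
        simp [adjB_iff, arc]
    · exact absurd h.1 h3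
  rw [key (verts N L φ.length) (adjB φ N) (fun a b => by simp only [adjB, or_comm])
    (fun a => by
      rw [Bool.eq_false_iff]
      simp only [ne_eq, adjB_iff, arc]
      omega) N (2 * N + L) ?_ ?_ ?_ ((Finset.range (N + 1)).image (g z)) ?_
      (hcard _) ?_]
  · constructor
    · rintro ⟨a, ha⟩
      refine ⟨_, hcard a, fun x hx => ?_⟩
      suffices h : ∃ i ≤ N, adjB φ N x (g a i) = true by
        obtain ⟨i, hi, h⟩ := h
        exact ⟨_, Finset.mem_image_of_mem _ (by simpa [Nat.lt_succ_iff] using hi), hg _ _, h⟩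
      by_cases h3 : x.1 = 3
      · obtain ⟨t, j, k⟩ := x
        rw [mem_verts] at hx
        have hj : j < φ.length := by
          simp only [Prod.mk.injEq] at hx h3
          omega
        obtain ⟨v1, v2, v3⟩ := hvar _ (List.getElem_mem hj)
        simp only at h3
        subst h3
        rcases ha _ (List.getElem_mem hj) with h | h | h
        · refine ⟨_, v1.le, ?_⟩
          rw [hgi a _ v1]
          simp [adjB_iff, arc, occ_iff φ j hj, h]
        · refine ⟨_, v2.le, ?_⟩
          rw [hgi a _ v2]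
          simp [adjB_iff, arc, occ_iff φ j hj, h]
        · refine ⟨_, v3.le, ?_⟩
          rw [hgi a _ v3]
          simp [adjB_iff, arc, occ_iff φ j hj, h]
      · exact hdom a x hx h3
    · rintro ⟨S, hS, hS'⟩
      have h1 : ∀ i, i ≤ N → ∃ y ∈ S, (i < N → y.1 = 1 ∧ y.2.1 = i) ∧ (i = N → y.1 = 0) := by
        intro i hi
        obtain ⟨y, hy, hy', e⟩ := hS' (2, i, 0) (by rw [mem_verts]; simp [hi]; omega)
        refine ⟨y, hy, ?_⟩
        have e' : (y.1 = 0 ∧ i = N) ∨ (y.1 = 1 ∧ y.2.1 = i) := by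
          simpa [adjB_iff, arc] using e
        rw [mem_verts, Prod.ext_iff] at hy'
        omega
      choose! f hf hf' using h1
      have hinj : Set.InjOn f (Finset.range (N + 1) : Finset ℕ) := by
        intro i hi j hj e
        simp only [Finset.coe_range, Set.mem_Iio] at hi hj
        have a1 := hf' i (by omega)
        have a2 := hf' j (by omega)
        rw [e] at a1
        omega
      have hSeq : (Finset.range (N + 1)).image f = S := by
        refine Finset.eq_of_subset_of_card_le ?_ ?_
        · intro y hy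
          obtain ⟨i, hi, rfl⟩ := Finset.mem_image.1 hy
          exact hf i (by simpa [Nat.lt_succ_iff] using hi)
        · rw [Finset.card_image_of_injOn hinj]
          simpa using hS
      refine ⟨fun i => decide ((f i).2.2 = 1), fun c hc => ?_⟩
      obtain ⟨j, hj, rfl⟩ := List.getElem_of_mem hc
      obtain ⟨y, hy, -, e⟩ := hS' (3, j, 0) (by rw [mem_verts]; simp [hj])
      rw [← hSeq] at hy
      obtain ⟨i, hi, rfl⟩ := Finset.mem_image.1 hy
      have a1 := hf' i (by simpa [Nat.lt_succ_iff] using hi)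
      simp only [Finset.mem_range] at hi
      have e' : (f i).1 = 1 ∧ occ φ j ((f i).2.1, decide ((f i).2.2 = 1)) := by
        simpa [adjB_iff, arc] using e
      have a2 : (f i).2.1 = i := by omega
      rw [a2, occ_iff φ j hj] at e'
      unfold Clause3.Holds
      rcases e'.2 with h | h | h <;> simp [h]
  · intro x hx
    by_cases h3 : x.1 = 3
    · obtain ⟨t, j, k⟩ := x
      rw [mem_verts] at hx
      have hj : j < φ.length := by
        simp only [Prod.mk.injEq] at hx h3
        omega
      obtain ⟨v1, -, -⟩ := hvar _ (List.getElem_mem hj)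
      simp only at h3
      subst h3
      exact ⟨_, hlit _ φ[j].1.2 v1, by simp [adjB_iff, arc, occ_iff φ j hj]⟩
    · obtain ⟨i, -, h⟩ := hdom z x hx h3
      exact ⟨_, hg _ _, h⟩
  · intro x hx
    obtain ⟨t, i, j⟩ := x
    rw [mem_verts] at hx
    rcases hx with h | h | h | h
    · rw [h, deg_u]
    · obtain rfl : t = 1 := h.1
      have := (deg_lit φ N L φ.length i j h.2.1).2
      omega
    · have := deg_low φ N L φ.length (t, i, j) (by omega)
      omega
    · have := deg_low φ N L φ.length (t, i, j) (by omega)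
      omega
  · rw [hlen]
    nlinarith
  · intro x hx
    obtain ⟨i, -, rfl⟩ := Finset.mem_image.1 hx
    exact hg _ _
  · rw [Finset.sum_image, Finset.sum_range_succ, hgN, deg_u, hlen]
    · have : ∑ i ∈ Finset.range N, (1 + L) ≤ ∑ i ∈ Finset.range N,
          (verts N L φ.length).countP (adjB φ N (g z i)) := by
        refine Finset.sum_le_sum fun i hi => ?_
        rw [hgi _ i (by simpa using hi)]
        exact (deg_lit φ N L φ.length i _ (by simpa using hi)).1
      simp only [Finset.sum_const, Finset.card_range, smul_eq_mul] at this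
      nlinarith
    · intro i hi j hj e
      simp only [Finset.coe_range, Set.mem_Iio] at hi hj
      simp only [hgdef, pick] at e
      split_ifs at e <;> simp only [Prod.mk.injEq] at e <;> omega

theorem good_complete : N793a5b8e.IsCompleteFor N68a2faeb.NP (langOf Good) :=
  (hardOn_sat3.of_red (Pr' := fun _ => True) red red_pt
    fun φ hφ => ⟨trivial, red_spec φ hφ⟩).isComplete (fun _ _ => Iff.rfl) good_mem_NP

end Pool.Agent.MP_bfbf95_lc

end
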